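import Pool.Agent.N229.PG.Stm

set_option autoImplicit false

/-! Project PG (problem MP_345ce5_an), leaf S3: `V` near the points of `E`. -/

namespace PG

open Complex Filter Topology Metric Set

lemma s3_pow {α u : ℝ} (h0 : 0 < α) (h1 : α < 1) (hu0 : 0 ≤ u) (hu2 : u ≤ 2) : u ≤ 2 * u ^ α := by
  rcases hu0.eq_or_lt with h | h
  · rw [← h, Real.zero_rpow h0.ne']
    norm_num
  · have e : u = u ^ (1 - α) * u ^ α := by
      rw [← Real.rpow_add h]
      norm_num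
    have h2 : u ^ (1 - α) ≤ 2 := by
      calc u ^ (1 - α) ≤ 2 ^ (1 - α) := Real.rpow_le_rpow hu0 hu2 (by linarith)
        _ ≤ 2 ^ (1 : ℝ) := Real.rpow_le_rpow_of_exponent_le (by norm_num) (by linarith)
        _ = 2 := Real.rpow_one 2
    calc u = u ^ (1 - α) * u ^ α := e
      _ ≤ 2 * u ^ α := mul_le_mul_of_nonneg_right h2 (Real.rpow_nonneg hu0 α)

theorem leaf_S3 : StmK3 → StmS3 := by
  intro hK3 α h0 h1 ι a ρ C0 hconf cc K hG
  obtain ⟨C, D, hC, hD, h3⟩ := hK3 α h0 h1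
  obtain ⟨hcc, hK, hG⟩ := hG
  have hC0 : 1 ≤ C0 := hconf.one_le
  have hKC : 1 ≤ C * K := by nlinarith
  have hKC0 : 1 ≤ K * (C0 + 2) := by nlinarith
  refine ⟨K * (C0 + 2) + C * K, by linarith, fun z hz hzE e he => ?_⟩
  obtain ⟨hsum, hre, hinv, hW⟩ := hG z hz hzE
  set v : ℝ := ‖VV α cc a ρ z‖ with hv
  have hv0 : 0 ≤ v := norm_nonneg _
  have hz1 : z ≠ 1 := fun h => hzE (h ▸ mem_insert 1 _)
  have hz1' : 0 < ‖1 - z‖ := norm_pos_iff.2 (sub_ne_zero.2 (Ne.symm hz1))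
  have hmain : 1 ≤ K * v * ‖1 - z‖ := by
    have := mul_le_mul_of_nonneg_right hinv hz1'.le
    rwa [inv_mul_cancel₀ hz1'.ne'] at this
  -- if `‖1 - z‖ ≤ (C0 + 2) u ^ α`
  have hfin : ∀ u : ℝ, 0 ≤ u → ‖1 - z‖ ≤ (C0 + 2) * u ^ α →
      1 ≤ (K * (C0 + 2) + C * K) * u ^ α * v := by
    intro u hu h
    have hua : 0 ≤ u ^ α := Real.rpow_nonneg hu α
    have h5 : K * v * ‖1 - z‖ ≤ K * v * ((C0 + 2) * u ^ α) :=
      mul_le_mul_of_nonneg_left h (by positivity)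
    have h6 : 0 ≤ C * K * (u ^ α * v) := by positivity
    nlinarith
  have hle2 : ∀ w : ℂ, ‖w‖ = 1 → ‖z - w‖ ≤ 2 := by
    intro w hw
    calc ‖z - w‖ ≤ ‖z‖ + ‖w‖ := norm_sub_le z w
      _ ≤ 2 := by rw [hw]; linarith
  rcases mem_insert_iff.1 he with rfl | ⟨k, rfl⟩
  · refine hfin _ (norm_nonneg _) ?_
    have h7 : ‖z - 1‖ ≤ 2 * ‖z - 1‖ ^ α := s3_pow h0 h1 (norm_nonneg _) (hle2 1 norm_one)
    have h8 : 0 ≤ ‖z - 1‖ ^ α := Real.rpow_nonneg (norm_nonneg _) α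
    rw [norm_sub_rev 1 z]
    nlinarith
  · have ha : ‖a k‖ = 1 := hconf.norm_a k
    have hzk : z ≠ a k := fun h => hzE (h ▸ mem_insert_of_mem _ (mem_range_self k))
    have hu0 : 0 < ‖z - a k‖ := norm_pos_iff.2 (sub_ne_zero.2 hzk)
    have hu2 : ‖z - a k‖ ≤ 2 * ‖z - a k‖ ^ α := s3_pow h0 h1 hu0.le (hle2 _ ha)
    have hua : 0 ≤ ‖z - a k‖ ^ α := Real.rpow_nonneg hu0.le α
    have hconj : (starRingEnd ℂ) (a k) * a k = 1 := by
      rw [mul_comm, Complex.mul_conj, Complex.normSq_eq_norm_sq, ha]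
      norm_num
    have hs : 1 - z * (starRingEnd ℂ) (a k) = (starRingEnd ℂ) (a k) * (a k - z) := by
      rw [mul_sub, hconj]
      ring
    have hsn : ‖1 - z * (starRingEnd ℂ) (a k)‖ = ‖z - a k‖ := by
      rw [hs, norm_mul, RCLike.norm_conj, ha, one_mul, norm_sub_rev]
    have hs0 : 1 - z * (starRingEnd ℂ) (a k) ≠ 0 := by
      rw [← norm_pos_iff, hsn]
      exact hu0
    have hsre : 0 ≤ (1 - z * (starRingEnd ℂ) (a k)).re := by
      have h9 : (z * (starRingEnd ℂ) (a k)).re ≤ 1 := by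
        refine (Complex.re_le_norm _).trans ?_
        rw [norm_mul, RCLike.norm_conj, ha, mul_one]
        exact hz
      rw [Complex.sub_re, Complex.one_re]
      linarith
    rcases le_or_gt ‖z - a k‖ (ρ k) with hle | hgt
    · have h10 := (h3 (ρ k) (hconf.rho_pos k) _ hsre hs0).2.2.2.1 (by rw [hsn]; exact hle)
      rw [hsn] at h10
      have h11 : ‖WW α a ρ k z‖ ≤ K * v :=
        (hsum.le_tsum k fun j _ => norm_nonneg _).trans hW
      have h12 : ‖ker α (ρ k) (1 - z * (starRingEnd ℂ) (a k))‖ ≤ K * v := h11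
      have h13 : C * (‖z - a k‖ ^ α * ‖ker α (ρ k) (1 - z * (starRingEnd ℂ) (a k))‖) ≤
          C * (‖z - a k‖ ^ α * (K * v)) :=
        mul_le_mul_of_nonneg_left (mul_le_mul_of_nonneg_left h12 hua) (by linarith)
      have h14 : 0 ≤ K * (C0 + 2) * (‖z - a k‖ ^ α * v) := by positivity
      nlinarith
    · refine hfin _ hu0.le ?_
      have h15 : ‖1 - z‖ ≤ ‖1 - a k‖ + ‖z - a k‖ := by
        have : 1 - z = (1 - a k) - (z - a k) := by ring
        rw [this]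
        exact norm_sub_le _ _
      have h16 : ρ k ^ α ≤ ‖z - a k‖ ^ α :=
        Real.rpow_le_rpow (hconf.rho_pos k).le hgt.le h0.le
      have h17 := hconf.tau_le k
      have h18 : C0 * ρ k ^ α ≤ C0 * ‖z - a k‖ ^ α := mul_le_mul_of_nonneg_left h16 (by linarith)
      linarith

end PG
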